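import Pool.Agent.Lib.DI.Top

/-!
# MP_d0239a_nt: conjugate fields

`X(F^cyc)` is finitely generated if `X((σ F)^cyc)` is; and every embedding `Ω → ℂ` is `io ∘ σ`.
-/

open scoped Pointwise

noncomputable section

namespace Pool.Agent.DK

open Pool.Agent.MuZ
open Pool.Agent.DI (io io_inj exists_io)

/-- Continuous homomorphisms of a conjugate subgroup. -/
theorem VV_finite (p : ℕ) (σ : Gal(Om/ℚ)) (W : Subgroup Gal(Om/ℚ))
    (h : Finite (VV p (Loc p) (W.map (MulAut.conj σ).toMonoidHom))) : Finite (VV p (Loc p) W) := by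
  have hW : ∀ g : Gal(Om/ℚ), g ∈ W.map (MulAut.conj σ).toMonoidHom ↔ σ⁻¹ * g * σ ∈ W := by
    intro g
    rw [Subgroup.mem_map]
    constructor
    · rintro ⟨w, hw, rfl⟩
      change σ⁻¹ * (σ * w * σ⁻¹) * σ ∈ W
      have e : σ⁻¹ * (σ * w * σ⁻¹) * σ = w := by group
      rw [e]
      exact hw
    · intro hg
      refine ⟨_, hg, ?_⟩
      change σ * (σ⁻¹ * g * σ) * σ⁻¹ = g
      group
  have key : ∀ f ∈ VV p (Loc p) W,
      (fun g => f (σ⁻¹ * g * σ)) ∈ VV p (Loc p) (W.map (MulAut.conj σ).toMonoidHom) := by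
    rintro f ⟨f1, f2, ⟨O, f3⟩, f4⟩
    refine ⟨fun g hg => f1 _ fun h1 => hg ((hW g).2 h1), ?_, ?_, ?_⟩
    · intro g hg g' hg'
      have e : σ⁻¹ * (g * g') * σ = (σ⁻¹ * g * σ) * (σ⁻¹ * g' * σ) := by group
      change f (σ⁻¹ * (g * g') * σ) = _
      rw [e]
      exact f2 _ ((hW g).1 hg) _ ((hW g').1 hg')
    · have hcont : Continuous (fun g : Gal(Om/ℚ) => σ⁻¹ * g * σ) :=
        (continuous_mul_const σ).comp (continuous_const_mul σ⁻¹)
      have hcont' : Continuous (MulAut.conj σ⁻¹).toMonoidHom := by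
        have e : ⇑(MulAut.conj σ⁻¹).toMonoidHom = fun g : Gal(Om/ℚ) => σ⁻¹ * g * σ := by
          funext g
          change σ⁻¹ * g * σ⁻¹⁻¹ = _
          rw [inv_inv]
        rw [e]
        exact hcont
      refine ⟨O.comap (MulAut.conj σ⁻¹).toMonoidHom hcont', fun g hg hgO => ?_⟩
      have h1 : (MulAut.conj σ⁻¹).toMonoidHom g ∈ O := hgO
      have e : (MulAut.conj σ⁻¹).toMonoidHom g = σ⁻¹ * g * σ := by
        change σ⁻¹ * g * σ⁻¹⁻¹ = _
        rw [inv_inv]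
      rw [e] at h1
      exact f3 _ ((hW g).1 hg) h1
    · intro Λ hΛ g hg hgW
      refine f4 _ (MuZ.conj.1 p σ⁻¹ Λ hΛ) _ ?_ ((hW g).1 hgW)
      refine Subgroup.mem_map.2 ⟨g, hg, ?_⟩
      change σ⁻¹ * g * σ⁻¹⁻¹ = _
      rw [inv_inv]
  refine Finite.of_injective
    (fun f : VV p (Loc p) W => (⟨_, key f.1 f.2⟩ : VV p (Loc p) (W.map (MulAut.conj σ).toMonoidHom)))
    ?_
  rintro ⟨f, hf⟩ ⟨f', hf'⟩ h1
  have h2 := congrArg Subtype.val h1
  ext g
  have h3 := congrFun h2 (σ * g * σ⁻¹)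
  have e : σ⁻¹ * (σ * g * σ⁻¹) * σ = g := by group
  simp only [e] at h3
  exact h3

theorem fix_map (σ : Gal(Om/ℚ)) (F F' : IntermediateField ℚ Om) (h : ∀ x, x ∈ F ↔ σ x ∈ F') :
    F'.fixingSubgroup = F.fixingSubgroup.map (MulAut.conj σ).toMonoidHom := by
  ext g
  rw [mem_fix, Subgroup.mem_map]
  constructor
  · intro hg
    refine ⟨σ⁻¹ * g * σ, ?_, ?_⟩
    · change σ⁻¹ * g * σ ∈ F.fixingSubgroup
      rw [mem_fix]
      intro x hx
      change σ⁻¹ (g (σ x)) = x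
      rw [hg _ ((h x).1 hx)]
      change (σ⁻¹ * σ) x = x
      rw [inv_mul_cancel]
      rfl
    · change σ * (σ⁻¹ * g * σ) * σ⁻¹ = g
      group
  · rintro ⟨w, hw, rfl⟩ y hy
    have hw' : w ∈ F.fixingSubgroup := hw
    rw [mem_fix] at hw'
    have e : y = σ (σ⁻¹ y) := by
      change y = (σ * σ⁻¹) y
      rw [mul_inv_cancel]
      rfl
    have h1 : σ⁻¹ y ∈ F := by
      rw [h, ← e]
      exact hy
    change σ (w (σ⁻¹ y)) = y
    rw [hw' _ h1]
    exact e.symm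

/-- `Qcyc` is a normal extension of `ℚ`. -/
theorem Qcyc_stab (p : ℕ) (σ : Gal(Om/ℚ)) (x : Om) (hx : x ∈ Qcyc p) : σ x ∈ Qcyc p := by
  rintro τ ⟨m, hm, h⟩
  have h1 : σ⁻¹ (τ (σ x)) = x := by
    have h2 : (σ⁻¹ * τ * σ) x = x := by
      refine hx (σ⁻¹ * τ * σ) ⟨m, hm, fun z hz => ?_⟩
      have e : (σ⁻¹ * τ * σ) ^ m = σ⁻¹ * τ ^ m * σ := by
        have := conj_pow (a := σ⁻¹) (b := τ) (i := m)
        rw [inv_inv] at this
        exact this
      rw [e]
      change σ⁻¹ ((τ ^ m) (σ z)) = z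
      have h3 : (τ ^ m) (σ z) = σ z := by
        obtain ⟨n, hn⟩ := hz
        exact h (σ z) ⟨n, by rw [← map_pow, hn, map_one]⟩
      rw [h3]
      change (σ⁻¹ * σ) z = z
      rw [inv_mul_cancel]
      rfl
    exact h2
  have h4 := congrArg σ h1
  have e : σ (σ⁻¹ (τ (σ x))) = τ (σ x) := by
    change (σ * σ⁻¹) (τ (σ x)) = _
    rw [mul_inv_cancel]
    rfl
  rw [e] at h4
  exact h4

/-- `X(F^cyc)` is finitely generated if `X((σ F)^cyc)` is. -/
theorem XFin_conj (p : ℕ) [Fact p.Prime] (σ : Gal(Om/ℚ)) (F F' : IntermediateField ℚ Om)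
    (h : ∀ x, x ∈ F ↔ σ x ∈ F') (hX : XFinGen p (cyc p F')) : XFinGen p (cyc p F) := by
  apply MuZ.bwd MuZ.sup
  apply VV_finite p σ
  have h1 := MuZ.fwd MuZ.fld p (cyc p F') hX
  have e : (cyc p F').fixingSubgroup =
      (cyc p F).fixingSubgroup.map (MulAut.conj σ).toMonoidHom := by
    apply fix_map
    have hle : ∀ (τ : Gal(Om/ℚ)) (E E' : IntermediateField ℚ Om), (∀ x ∈ E, τ x ∈ E') →
        ∀ x ∈ cyc p E, τ x ∈ cyc p E' := by
      intro τ E E' hE
      have h2 : cyc p E ≤ (cyc p E').comap (τ : Om →ₐ[ℚ] Om) := by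
        refine sup_le ?_ ?_
        · intro x hx
          exact (le_sup_left : E' ≤ cyc p E') (hE x hx)
        · intro x hx
          exact (le_sup_right : Qcyc p ≤ cyc p E') (Qcyc_stab p τ x hx)
      exact fun x hx => h2 hx
    intro x
    refine ⟨hle σ F F' (fun x hx => (h x).1 hx) x, fun hx => ?_⟩
    have h3 := hle σ⁻¹ F' F (fun y hy => by
      rw [h]
      change (σ * σ⁻¹) y ∈ F'
      rw [mul_inv_cancel]
      exact hy) _ hx
    have e3 : σ⁻¹ (σ x) = x := by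
      change (σ⁻¹ * σ) x = x
      rw [inv_mul_cancel]
      rfl
    rw [e3] at h3
    exact h3
  rw [← e]
  exact h1

/-- Every embedding of `Ω` is `io ∘ σ`. -/
theorem exists_gal (ι : Om →+* ℂ) : ∃ σ : Gal(Om/ℚ), ∀ x, io (σ x) = ι x := by
  have h1 : ∀ x : Om, ∃ y : Om, io y = ι x := by
    intro x
    apply exists_io
    have hx : IsAlgebraic ℚ x := Algebra.IsAlgebraic.isAlgebraic x
    have h2 := hx.algHom ι.toRatAlgHom
    exact h2
  choose φ hφ using h1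
  let f : Om →+* Om :=
    { toFun := φ
      map_one' := io_inj (by rw [hφ, map_one, map_one])
      map_mul' := fun a b => io_inj (by rw [map_mul, hφ, hφ, hφ, map_mul])
      map_zero' := io_inj (by rw [hφ, map_zero, map_zero])
      map_add' := fun a b => io_inj (by rw [map_add, hφ, hφ, hφ, map_add]) }
  exact ⟨Algebra.IsAlgebraic.algEquivEquivAlgHom ℚ Om |>.symm f.toRatAlgHom, hφ⟩

end Pool.Agent.DK
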