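import Pool.Agent.Lib.DK.Pub.Defs
import Pool.Agent.Lib.DK.Pub.Cjg
import Pool.Agent.Lib.DK.O.All
import Pool.Agent.Lib.MuZ.Pub

/-!
# MP_d0239a_nt: from `ThmDK` to the public form
-/

noncomputable section

namespace Pool.Agent.DK

open Pool.Agent.MuZ

/-- **Theorem DK, extended form.** -/
theorem ext2 (h : ThmDK) (k : ℕ) [SqK k] (F F0 L : IntermediateField ℚ Om) (σ : Gal(Om/ℚ))
    (hL : FiniteDimensional ℚ L) (hT : ∀ x ∈ F0, σ x ∈ Wf k) (hF0 : F0 ≤ L) (hF : F ≤ L)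
    (hst : ∀ τ ∈ F0.fixingSubgroup, ∀ x ∈ L, τ x ∈ L) (a : ℕ)
    (hdeg : Module.finrank ℚ L = 2 ^ a * Module.finrank ℚ F0) : XFinGen 2 (cyc 2 F) := by
  have hF0f : FiniteDimensional ℚ F0 := by
    have hpos : 0 < Module.finrank ℚ L := Module.finrank_pos
    rw [hdeg] at hpos
    exact Module.finite_of_finrank_pos (Nat.pos_of_mul_pos_left hpos)
  have hmap : ∀ x, x ∈ F0 ↔ σ x ∈ F0.map (σ : Om →ₐ[ℚ] Om) := by
    intro x
    rw [IntermediateField.mem_map]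
    constructor
    · intro hx
      exact ⟨x, hx, rfl⟩
    · rintro ⟨y, hy, hxy⟩
      have e : y = x := σ.injective hxy
      rw [← e]
      exact hy
  have hF0' : FiniteDimensional ℚ (F0.map (σ : Om →ₐ[ℚ] Om)) :=
    LinearEquiv.finiteDimensional (F0.intermediateFieldMap σ).toLinearEquiv
  have hle : F0.map (σ : Om →ₐ[ℚ] Om) ≤ Wf k := by
    rintro _ ⟨x, hx, rfl⟩
    exact hT x hx
  have hX0 : XFinGen 2 (cyc 2 F0) := XFin_conj 2 σ F0 _ hmap (h k _ hF0' hle)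
  have hA : ThmA := MuZ.thmA MuZ.res MuZ.ext MuZ.alg MuZ.cliff MuZ.crit MuZ.conj MuZ.ram MuZ.frob
    MuZ.pow MuZ.tot MuZ.orb MuZ.sup MuZ.fld MuZ.fwd MuZ.bwd
  have h1 : XFinGen 2 (cyc 2 L) :=
    (DI.PI.pJPe hA 2 F0 F0 L hL le_rfl hF0 hst ⟨a, DI.pow_fix 2 F0 L hL hF0 hst a hdeg⟩).2 hX0
  exact DI.mono 2 F L hL hF h1

/-- `g₂`, `g₃` and `℘` depend only on the lattice. -/
theorem pair_congr (L L' : PeriodPair) (h : L.lattice = L'.lattice) :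
    L.g₂ = L'.g₂ ∧ L.g₃ = L'.g₃ ∧ ∀ z, L.weierstrassP z = L'.weierstrassP z := by
  have key : ∀ S : Submodule ℤ ℂ, L.lattice = S →
      L.g₂ = 60 * ∑' l : S, ((l : ℂ) ^ 4)⁻¹ ∧ L.g₃ = 140 * ∑' l : S, ((l : ℂ) ^ 6)⁻¹ ∧
        ∀ z, L.weierstrassP z = ∑' l : S, (1 / (z - l) ^ 2 - 1 / (l : ℂ) ^ 2) := by
    rintro S rfl
    exact ⟨rfl, rfl, fun _ => rfl⟩
  exact key _ h

end Pool.Agent.DK

namespace Pool.Agent.MuP

open Pool.Agent.DK (SqK OO Dk toC Lam LP wC)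

theorem weberField_le (k : ℕ) [SqK k] (D : ℕ) (hDk : Dk k = D) (Λ : PeriodPair) (h1 : Λ.ω₁ = 1)
    (h2 : Λ.ω₂ = (1 + √(D : ℝ) * Complex.I) / 2) (ι : Omega →+* ℂ)
    (σ : Gal(AlgebraicClosure ℚ/ℚ)) (hσ : ∀ x, DI.io (σ x) = ι x) (x : AlgebraicClosure ℚ)
    (hx : x ∈ (show IntermediateField ℚ (AlgebraicClosure ℚ) from WeberField ι Λ)) :
    σ x ∈ DK.Wf k := by
  have hw : Λ.ω₂ = wC k := by
    rw [h2, ← hDk]
    apply Complex.ext
    · simp [wC]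
    · simp [wC]
  have hlat : Λ.lattice = (LP (⊤ : Ideal (OO k))).lattice := by
    ext z
    have e1 : z ∈ (LP (⊤ : Ideal (OO k))).lattice ↔ z ∈ Lam (⊤ : Ideal (OO k)) := by
      rw [← DK.aL1 k ⊤ top_ne_bot]
      rfl
    rw [e1, ((DK.aL2 k).2.2.2.2.1 z), PeriodPair.mem_lattice, h1, hw]
    constructor
    · rintro ⟨m, n, rfl⟩
      refine ⟨⟨m, n⟩, ?_⟩
      rw [DK.toC_apply]
      simp
    · rintro ⟨v, rfl⟩
      refine ⟨v.re, v.im, ?_⟩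
      rw [DK.toC_apply]
      simp
  obtain ⟨g2, g3, hp⟩ := DK.pair_congr _ _ hlat
  have hmem : ∀ z : ℂ, z ∈ Λ.lattice ↔ z ∈ Lam (⊤ : Ideal (OO k)) := by
    intro z
    rw [hlat, ← DK.aL1 k ⊤ top_ne_bot]
    rfl
  have hle : (show IntermediateField ℚ (AlgebraicClosure ℚ) from WeberField ι Λ) ≤
      (DK.Wf k).comap (σ : AlgebraicClosure ℚ →ₐ[ℚ] AlgebraicClosure ℚ) := by
    refine (IntermediateField.adjoin_le_iff (F := ℚ) (E := AlgebraicClosure ℚ)).2 ?_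
    rintro a ha
    change σ a ∈ DK.Wf k
    rw [Set.mem_ofPred_eq, ← hσ a] at ha
    rcases ha with ha | ha | ⟨z, ⟨hz, n, hn, hnz⟩, ha⟩
    · rw [h1, div_one, hw] at ha
      have e : DK.wO k = σ a := by
        rw [← DI.ofC_io (σ a)]
        exact congrArg DI.ofC ha.symm
      rw [← e]
      exact IntermediateField.subset_adjoin _ _ (Or.inl (Or.inl rfl))
    · have e : DI.ofC (DK.jC k) = σ a / 1728 := by
        rw [← DI.ofC_io (σ a / 1728)]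
        congr 1
        rw [map_div₀, ha]
        unfold jInv DK.jC
        rw [g2, g3]
        have e2 : DI.io 1728 = 1728 := map_ofNat _ _
        rw [e2]
        ring
      have h3 : DI.ofC (DK.jC k) ∈ DK.Wf k :=
        IntermediateField.subset_adjoin _ _ (Or.inl (Or.inr rfl))
      rw [e] at h3
      have h4 : σ a = σ a / 1728 * 1728 := by
        field_simp
      rw [h4]
      exact mul_mem h3 (natCast_mem _ 1728)
    · have e : DI.ofC (DK.weC k z) = σ a := by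
        rw [← DI.ofC_io (σ a)]
        congr 1
        rw [ha]
        unfold weber DK.weC
        rw [g2, g3, hp]
        rfl
      rw [← e]
      refine IntermediateField.subset_adjoin _ _ (Or.inr ⟨z, ?_, ?_, rfl⟩)
      · exact ((DK.aL2 k).2.2.2.2.2.2.2 ⊤ z top_ne_bot).2 ⟨n, hn, (hmem _).1 hnz⟩
      · exact fun hz' => hz ((hmem z).2 hz')
  exact hle hx

theorem weber_of (h : DK.ThmDK) (D : ℕ) (hD : Squarefree D) (h8 : D % 8 = 7) (Λ : PeriodPair)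
    (h1 : Λ.ω₁ = 1) (h2 : Λ.ω₂ = (1 + √(D : ℝ) * Complex.I) / 2) (ι : Omega →+* ℂ)
    (F F₀ L : Fd) (hL : IsNF L) (h0 : F₀ ≤ WeberField ι Λ) (h0L : F₀ ≤ L) (hFL : F ≤ L)
    (hGal : GalOver F₀ L) (a : ℕ) (hdeg : deg L = 2 ^ a * deg F₀) : XFinGen 2 (cyc 2 F) := by
  haveI : Fact (Nat.Prime 2) := ⟨Nat.prime_two⟩
  have hk : Dk ((D + 1) / 8) = D := by
    unfold Dk
    omega
  haveI : SqK ((D + 1) / 8) := ⟨by omega, by
    have e : 8 * ((D + 1) / 8) - 1 = D := hk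
    rw [e]
    exact hD⟩
  obtain ⟨σ, hσ⟩ := DK.exists_gal ι
  exact (XFinGen_cyc_iff 2 F).2 (DK.ext2 h _ F F₀ L σ hL
    (fun x hx => weberField_le _ D hk Λ h1 h2 ι σ hσ x (h0 x hx)) h0L hFL hGal a hdeg)

end Pool.Agent.MuP
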